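import Pool.Agent.H727R4.CLT.Stmts

set_option autoImplicit false
open Set Polynomial
open Pool.Agent.Helper553.Orth

namespace Pool.Agent.H364R3.CLT

open Pool.Agent.H727R4.CLT

theorem taskSplit : TaskSplit := by
  classical
  intro m x ℓ hℓ hsep P
  have h1 := Finset.card_filter_add_card_filter_not (s := P.roots.toFinset)
    (fun t => ∀ k, t ∉ Icc (x k - ℓ) (x k + ℓ))
  have h2 : (P.roots.toFinset.filter (fun t => ¬ ∀ k, t ∉ Icc (x k - ℓ) (x k + ℓ))) =
      Finset.univ.biUnion (fun k : Fin m =>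
        P.roots.toFinset.filter (fun t => t ∈ Icc (x k - ℓ) (x k + ℓ))) := by
    ext t
    simp only [Finset.mem_filter, Finset.mem_biUnion, Finset.mem_univ, true_and, not_forall,
      not_not]
    constructor
    · rintro ⟨ht, k, hk⟩
      exact ⟨k, ht, hk⟩
    · rintro ⟨k, ht, hk⟩
      exact ⟨ht, k, hk⟩
  have h3 : (Finset.univ.biUnion (fun k : Fin m =>
        P.roots.toFinset.filter (fun t => t ∈ Icc (x k - ℓ) (x k + ℓ)))).card =
      ∑ k, zx (x k) ℓ P := by
    rw [Finset.card_biUnion]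
    · refine Finset.sum_congr rfl fun k _ => ?_
      unfold zx
      congr
    · intro k _ l _ hkl
      show Disjoint _ _
      rw [Finset.disjoint_left]
      intro t hk hl
      rw [Finset.mem_filter, mem_Icc] at hk hl
      have h := hsep k l hkl
      obtain ⟨_, hk1, hk2⟩ := hk
      obtain ⟨_, hl1, hl2⟩ := hl
      rcases abs_cases (x k - x l) with ⟨ha, _⟩ | ⟨ha, _⟩ <;> rw [ha] at h <;> linarith
  rw [h2, h3] at h1
  unfold nr nrx
  rw [← h1]

end Pool.Agent.H364R3.CLT
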